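import Pool.Agent.MP_158692_nt.Mg.Pos

/-! Weight of the predecessors with a prescribed number of odd steps. -/

namespace Pool.Agent.MP_158692_nt.S86

open Finset Function

/-- indicator of `k = n` -/
noncomputable def lev (n k : ℕ) : ℝ := if k = n then 1 else 0

theorem lev_nonneg (n k : ℕ) : 0 ≤ lev n k := by unfold lev; split_ifs <;> norm_num

theorem lhit {n k : ℕ} (h : k ≤ n) (H : ℕ) :
    2 * Bn H (fun i => if n < k + i then 1 else 0) =
      ∑ j ∈ range H, Bn j (fun i => lev n (k + i)) := by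
  induction H with
  | zero => simp [Bn_zero, not_lt.2 h]
  | succ H ih =>
    rw [sum_range_succ, Bn_succ, ← ih]
    have h1 : Bn H (fun i => if n < k + (i + 1) then (1 : ℝ) else 0) =
        Bn H (fun i => (if n < k + i then (1 : ℝ) else 0) + lev n (k + i)) := by
      refine Bn_congr fun i _ => ?_
      unfold lev
      by_cases h2 : n < k + i
      · rw [if_pos h2, if_pos (by omega), if_neg (by omega), add_zero]
      · by_cases h3 : k + i = n
        · rw [if_neg h2, if_pos (by omega), if_pos h3, zero_add]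
        · rw [if_neg h2, if_neg (by omega), if_neg h3, add_zero]
    rw [Bn_add] at h1
    linarith

theorem lhit' {n d k H : ℕ} (ht : Typ d k) (h1 : 501 * d ≤ 1000 * n)
    (h2 : 1000 * n < 499 * (d + H)) (hH : Bn H (unt H) ≤ 1 / 2) :
    1 ≤ ∑ j ∈ range H, Bn j (fun i => lev n (k + i)) := by
  have hk : k ≤ n := by
    have h3 := le_abs_self (2 * (k : ℤ) - d)
    unfold Typ at ht
    omega
  rw [← lhit hk H]
  have : Bn H (fun i => 1 - unt H i) ≤ Bn H (fun i => if n < k + i then 1 else 0) := by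
    refine Bn_mono fun i _ => ?_
    rw [unt]
    by_cases h : Typ H i
    · have h4 := ht.add h
      have h3 := neg_abs_le (2 * ((k + i : ℕ) : ℤ) - ((d + H : ℕ) : ℤ))
      unfold Typ at h4
      rw [if_pos h, if_pos (by omega)]; norm_num
    · rw [if_neg h]; split_ifs <;> norm_num
  rw [Bn_sub, Bn_const] at this
  linarith only [hH, this]

theorem sum_lev {N n : ℕ} {K E : ℝ} (hK : 0 ≤ K) (hE : Err (N / 50) E)
    (hH : Bn (N / 20) (unt (N / 20)) ≤ 1 / 2)
    (h1 : 501 * (N + N / 50) ≤ 1000 * n) (h2 : 1000 * n < 499 * (N + N / 50 + N / 20)) (a : ℤ) :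
    mass K N a - ((N / 20 : ℕ) + 1) * ((N + 1) * (K + 1) * E) ≤
      ∑ j ∈ range (N / 20), Tr (N + (N / 50 + j)) (fun k _ _ => lev n k) a := by
  set m := N / 50 with hm
  set H := N / 20 with hH'
  have h3 : ∀ j ∈ range H, Tr N (fun k G b => cN K N k G *
      Tr m (fun k' _ _ => Bn j (fun i => lev n (k + k' + i))) b) a -
        (N + 1) * (K + 1) * E ≤ Tr (N + (m + j)) (fun k _ _ => lev n k) a := by
    intro j hj
    have hj' : 14 * (m + j) ≤ N := by have := mem_range.1 hj; omega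
    have h4 := dens (N := N) (L := m + j) hj' hK (E := E)
      (u := fun k b => |Tr (m + j) (fun k' _ _ => lev n (k + k')) b -
        Tr m (fun k' _ _ => Bn j (fun i => lev n (k + (k' + i)))) b|)
      (fun k b => by
        simp only [Tr_per_const (m + j) (fun k' _ => lev n (k + k')) b,
          per_pow (Tr_per_const m (fun k' _ => Bn j (fun i => lev n (k + (k' + i)))))
            (Nat.le_add_right m j) b])
      (fun _ _ => abs_nonneg _)
      (fun k => hE.2 j (fun k' => lev n (k + k')) fun k' => by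
        unfold lev; split_ifs <;> norm_num) a
    refine le_trans ?_ (Tr_comp_ge (c := cN K N) (v := fun k k' _ => lev n (k + k'))
      (fun k G k' G' n' _ => ?_) a)
    · refine (sub_le_sub_left h4 _).trans ?_
      rw [← Tr_sub]
      refine Tr_mono (fun k G b _ => ?_) a
      rw [← mul_sub]
      refine mul_le_mul_of_nonneg_left ?_ (cN_nonneg _ _ _ _)
      simp only [add_assoc k]
      linarith only [neg_abs_le (Tr (m + j) (fun k' _ _ => lev n (k + k')) b -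
        Tr m (fun k' _ _ => Bn j (fun i => lev n (k + (k' + i)))) b)]
    · rw [cN]
      by_cases h5 : Typ N k ∧ (G : ℝ) ≤ K * 2 ^ N
      · rw [if_pos h5, one_mul]
      · rw [if_neg h5, zero_mul]
        exact lev_nonneg _ _
  refine le_trans ?_ (sum_le_sum h3)
  rw [sum_sub_distrib, sum_const, card_range, nsmul_eq_mul, ← Tr_sum]
  have h4 := dens (N := N) (L := m) (by omega) hK (E := E)
    (u := fun _ b => Tr m (fun k _ _ => unt m k) b) (fun _ => Tr_per_const m fun k _ => unt m k)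
    (fun _ b => Tr_nonneg (fun _ _ _ => unt_nonneg _ _) b)
    (fun _ => (avg_Tr_const m fun k _ => unt m k).le.trans hE.1) a
  have h5 : mass K N a - Tr N (fun k G b => cN K N k G * Tr m (fun k _ _ => unt m k) b) a ≤
      Tr N (fun k G b => ∑ j ∈ range H, cN K N k G *
        Tr m (fun k' _ _ => Bn j (fun i => lev n (k + k' + i))) b) a := by
    rw [mass, ← Tr_sub]
    refine Tr_mono (fun k G b _ => ?_) a
    rw [← mul_sub, ← mul_sum, ← Tr_sum, rho, ← Tr_sub, cN]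
    split_ifs with h6
    · refine mul_le_mul_of_nonneg_left (Tr_mono (fun k' _ _ _ => ?_) b) zero_le_one
      rw [unt]
      split_ifs with h7
      · rw [sub_zero]; exact lhit' (h6.1.add h7) h1 h2 hH
      · rw [sub_self]
        exact sum_nonneg fun j _ => Bn_nonneg fun _ _ => lev_nonneg _ _
    · simp
  linarith only [h4, h5]

/-- weight of the predecessors of depth `< D` with exactly `n` odd steps -/
noncomputable def VV (D n : ℕ) (x : ℤ) : ℝ := ∑ d ∈ range D, Tr d (fun k _ _ => lev n k) x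

theorem VV_nonneg (D n : ℕ) (x : ℤ) : 0 ≤ VV D n x :=
  sum_nonneg fun _ _ => Tr_nonneg (fun _ _ _ => lev_nonneg _ _) x

theorem VV_succ (D n : ℕ) (x : ℤ) : VV (D + 1) n x = lev n 0 + (VV D n (2 * x) +
    if (3 : ℤ) ∣ 2 * x - 1 then
      3 * ∑ d ∈ range D, Tr d (fun k _ _ => lev n (1 + k)) ((2 * x - 1) / 3) else 0) / 2 := by
  have h : ∀ d, Tr (d + 1) (fun k _ _ => lev n k) x = (Tr d (fun k _ _ => lev n k) (2 * x) +
      if (3 : ℤ) ∣ 2 * x - 1 then
        3 * Tr d (fun k _ _ => lev n (1 + k)) ((2 * x - 1) / 3) else 0) / 2 := by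
    intro d
    rw [add_comm d 1, Tr_add_len, Tr_one]
    simp only [zero_add]
  rw [VV, sum_range_succ', Tr_zero, add_comm, VV]
  simp only [h]
  rw [← sum_div, sum_add_distrib]
  by_cases h3 : (3 : ℤ) ∣ 2 * x - 1
  · simp only [if_pos h3, mul_sum]
  · simp only [if_neg h3, sum_const_zero]

theorem VV_dbl (D n : ℕ) (x : ℤ) : VV D n (2 * x) / 2 ≤ VV (D + 1) n x := by
  rw [VV_succ]
  have h1 := lev_nonneg n 0
  have h2 : (0 : ℝ) ≤ if (3 : ℤ) ∣ 2 * x - 1 then
      3 * ∑ d ∈ range D, Tr d (fun k _ _ => lev n (1 + k)) ((2 * x - 1) / 3) else 0 := by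
    split_ifs
    · exact mul_nonneg (by norm_num)
        (sum_nonneg fun _ _ => Tr_nonneg (fun _ _ _ => lev_nonneg _ _) _)
    · exact le_rfl
  linarith

theorem VV_pow (D n j : ℕ) : ∀ x : ℤ, VV D n (2 ^ j * x) / 2 ^ j ≤ VV (D + j) n x := by
  induction j with
  | zero => intro x; simp
  | succ j ih =>
    intro x
    have h1 := ih (2 * x)
    have h2 := VV_dbl (D + j) n x
    rw [show (2 : ℤ) ^ (j + 1) * x = 2 ^ j * (2 * x) by ring, pow_succ, ← div_div, ← add_assoc]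
    linarith

theorem lower : ∃ c : ℝ, 0 < c ∧ ∃ n0 : ℕ, ∀ n, n0 ≤ n → ∀ x : ℤ, ¬ (3 : ℤ) ∣ x →
    ∃ D, c ≤ VV D n x := by
  obtain ⟨N0, h0, h1, h2⟩ := exists_start
  obtain ⟨b, hb, hs⟩ := mass_start (by omega) h1
  obtain ⟨J, hJ⟩ := root_gen (N0 + N0 / 50)
  have h0' : (2000 : ℝ) ≤ N0 := by exact_mod_cast h0
  refine ⟨1 / 8 / 2 ^ J, by positivity, N0 + N0 / 50, fun n hn x hx => ?_⟩
  obtain ⟨j, hj, e⟩ := hJ x b (by omega) (by omega)
  have h3 : 2 ^ j * x ≡ b [ZMOD 3 ^ (N0 + N0 / 50)] :=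
    (Int.modEq_iff_dvd.2 ((pow_dvd_pow 3 (Nat.le_succ _)).trans e)).symm
  obtain ⟨N, ⟨hN, hm⟩, h7, h8⟩ := exists_cross (f := fun N => N + N / 50) (N0 := N0)
    (P := fun N => N0 ≤ N ∧ 1 / 4 + (N0 : ℝ) / (4 * N) ≤ mass (2 * N0 - N0 ^ 2 / N) N (2 ^ j * x))
    (y := ((1000 * n / 501 : ℕ) : ℝ))
    ⟨le_rfl, by
      rw [show (2 : ℝ) * N0 - N0 ^ 2 / N0 = N0 by field_simp; ring,
        show 1 / 4 + (N0 : ℝ) / (4 * N0) = 1 / 2 by field_simp; ring]
      exact hs _ h3⟩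
    (fun N hN => ⟨⟨by omega, mass_chain h0 hN.1 (h2 N hN.1).1 hN.2⟩, by omega⟩)
    (Nat.cast_le.2 (by omega))
  have h7' : N + N / 50 ≤ 1000 * n / 501 := Nat.cast_le.1 h7
  have h8' : 1000 * n / 501 < N + N / 50 + (N + N / 50) / 50 := Nat.cast_lt.1 h8
  have hN' : (N0 : ℝ) ≤ N := by exact_mod_cast hN
  have hp : (0 : ℝ) < N := by linarith only [h0', hN']
  have hK : (N0 : ℝ) ^ 2 / N ≤ N0 := by rw [div_le_iff₀ hp]; nlinarith only [hN']
  have hK' : (0 : ℝ) ≤ N0 ^ 2 / N := by positivity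
  have h9 := sum_lev (n := n) (K := 2 * N0 - N0 ^ 2 / N) (by linarith only [hK]) (h2 N hN).1
    (h2 N hN).2 (by omega) (by omega) (2 ^ j * x)
  have h10 : (((N / 20 : ℕ) : ℝ) + 1) * ((N + 1) * (2 * N0 - N0 ^ 2 / N + 1) *
      (1 / (10000 * (N : ℝ) ^ 3))) ≤ N * (2 * N * (3 * N) * (1 / (10000 * (N : ℝ) ^ 3))) := by
    have : ((N / 20 : ℕ) : ℝ) + 1 ≤ N := by exact_mod_cast (by omega : N / 20 + 1 ≤ N)
    have : (0 : ℝ) ≤ 2 * N0 - N0 ^ 2 / N + 1 := by linarith only [hK]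
    gcongr <;> linarith only [h0', hN', hK']
  have h11 : (N : ℝ) * (2 * N * (3 * N) * (1 / (10000 * (N : ℝ) ^ 3))) = 6 / 10000 := by
    field_simp; ring
  have h12 : (0 : ℝ) ≤ N0 / (4 * N) := by positivity
  have h13 : 1 / 8 ≤ VV (N + N / 50 + N / 20) n (2 ^ j * x) := by
    rw [VV, sum_range_add]
    have h14 := VV_nonneg (N + N / 50) n (2 ^ j * x)
    rw [VV] at h14
    simp only [add_assoc N]
    linarith only [hm, h9, h10, h11, h12, h14]
  refine ⟨N + N / 50 + N / 20 + j, le_trans ?_ (VV_pow _ n j x)⟩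
  have h15 : (2 : ℝ) ^ j ≤ 2 ^ J := pow_le_pow_right₀ (by norm_num) hj
  calc (1 : ℝ) / 8 / 2 ^ J ≤ 1 / 8 / 2 ^ j := by gcongr
    _ ≤ _ := by gcongr

theorem lev_succ (n k : ℕ) : lev (n + 1) (1 + k) = lev n k := by
  unfold lev
  by_cases h : k = n
  · rw [if_pos h, if_pos (by omega)]
  · rw [if_neg h, if_neg (by omega)]

theorem small : ∃ δ : ℝ, 0 < δ ∧ δ ≤ 1 ∧ ∀ (n : ℕ) (x : ℤ), ¬ (3 : ℤ) ∣ x →
    ∃ D, δ ^ n ≤ VV D n x := by
  obtain ⟨J, hJ⟩ := root_gen 1
  have hJ1 : (1 : ℝ) ≤ 2 ^ J := one_le_pow₀ (by norm_num)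
  refine ⟨1 / 2 ^ J, by positivity, (div_le_one (by positivity)).2 hJ1, fun n => ?_⟩
  induction n with
  | zero =>
    intro x _
    refine ⟨1, ?_⟩
    rw [VV, sum_range_one, Tr_zero, lev, if_pos rfl, pow_zero]
  | succ n ih =>
    intro x hx
    obtain ⟨j, hj, e⟩ := hJ x 2 (by omega) (by omega)
    have e9 : (9 : ℤ) ∣ 2 ^ j * x - 2 := by simpa using e
    generalize hz : (2 : ℤ) ^ j * x = z at e9
    have h3 : (3 : ℤ) ∣ 2 * z - 1 := by omega
    obtain ⟨D, hD⟩ := ih ((2 * z - 1) / 3) (by omega)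
    have h4 : VV D n ((2 * z - 1) / 3) ≤ VV (D + 1) (n + 1) z := by
      rw [VV_succ, if_pos h3]
      simp only [lev_succ]
      rw [show ∑ d ∈ range D, Tr d (fun k _ _ => lev n k) ((2 * z - 1) / 3) =
        VV D n ((2 * z - 1) / 3) from rfl]
      linarith only [lev_nonneg (n + 1) 0, VV_nonneg D (n + 1) (2 * z),
        VV_nonneg D n ((2 * z - 1) / 3)]
    refine ⟨D + 1 + j, le_trans ?_ (VV_pow (D + 1) (n + 1) j x)⟩
    have h15 : (2 : ℝ) ^ j ≤ 2 ^ J := pow_le_pow_right₀ (by norm_num) hj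
    have h16 := hD.trans h4
    rw [hz, pow_succ, mul_one_div]
    calc (1 / 2 ^ J : ℝ) ^ n / 2 ^ J ≤ (1 / 2 ^ J : ℝ) ^ n / 2 ^ j := by gcongr
      _ ≤ _ := by gcongr

theorem lower_all : ∃ c : ℝ, 0 < c ∧ ∀ (n : ℕ) (x : ℤ), ¬ (3 : ℤ) ∣ x → ∃ D, c ≤ VV D n x := by
  obtain ⟨c, hc, n0, h⟩ := lower
  obtain ⟨δ, h0, h1, h2⟩ := small
  refine ⟨min c (δ ^ n0), lt_min hc (by positivity), fun n x hx => ?_⟩
  rcases le_total n0 n with hn | hn
  · obtain ⟨D, hD⟩ := h n hn x hx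
    exact ⟨D, (min_le_left _ _).trans hD⟩
  · obtain ⟨D, hD⟩ := h2 n x hx
    exact ⟨D, ((min_le_right _ _).trans (pow_le_pow_of_le_one h0.le h1 hn)).trans hD⟩

end Pool.Agent.MP_158692_nt.S86
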