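import Pool.Agent.MP_158692_nt.S86.A

/-! The distribution of the Syracuse random variables as a sum over tuples. -/

namespace Pool.Agent.MP_158692_nt.S86

open Finset
open scoped ENNReal

def AA {n : ℕ} (a : Fin n → ℕ) : ℕ := ∑ j, (a j + 1)

def GZ {n : ℕ} (a : Fin n → ℕ) : ℤ :=
  ∑ i : Fin n, 3 ^ (i : ℕ) * 2 ^ (∑ j, if i < j then a j + 1 else 0)

noncomputable def tm (n : ℕ) (x : ℤ) (a : Fin n → ℕ) : ℝ≥0∞ :=
  if (3 : ℤ) ^ n ∣ 2 ^ AA a * x - GZ a then (2⁻¹ : ℝ≥0∞) ^ AA a else 0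

noncomputable def QQ (n : ℕ) (x : ℤ) : ℝ≥0∞ := ∑' a : Fin n → ℕ, tm n x a

theorem AA_cons {n : ℕ} (u : ℕ) (a : Fin n → ℕ) :
    AA (Fin.cons u a : Fin (n + 1) → ℕ) = AA a + 1 + u := by
  unfold AA
  rw [Fin.sum_univ_succ]
  simp only [Fin.cons_zero, Fin.cons_succ]
  omega

theorem GZ_cons {n : ℕ} (u : ℕ) (a : Fin n → ℕ) :
    GZ (Fin.cons u a : Fin (n + 1) → ℕ) = 2 ^ AA a + 3 * GZ a := by
  unfold GZ AA
  rw [Fin.sum_univ_succ, mul_sum]
  simp only [Fin.sum_univ_succ, Fin.cons_succ, lt_self_iff_false, if_false, Fin.succ_pos, if_true,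
    Fin.val_zero, pow_zero, one_mul, zero_add, Fin.not_lt_zero, Fin.succ_lt_succ_iff, Fin.val_succ]
  refine congrArg _ (sum_congr rfl fun i _ => ?_)
  ring

theorem QQ_zero (x : ℤ) : QQ 0 x = 1 := by
  unfold QQ
  rw [tsum_fintype, Fintype.sum_unique]
  simp [tm, AA]

theorem QQ_succ (n : ℕ) (x : ℤ) :
    QQ (n + 1) x = ∑' u : ℕ, ∑' a : Fin n → ℕ, tm (n + 1) x (Fin.cons u a) := by
  unfold QQ
  rw [← (Fin.consEquiv fun _ : Fin (n + 1) => ℕ).tsum_eq, ENNReal.tsum_prod']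
  rfl

theorem tm_shift (n : ℕ) (x : ℤ) (u : ℕ) (a : Fin n → ℕ) :
    tm (n + 1) x (Fin.cons (u + 1) a) = 2⁻¹ * tm (n + 1) (2 * x) (Fin.cons u a) := by
  unfold tm
  rw [AA_cons, AA_cons, GZ_cons, GZ_cons, ← add_assoc,
    show (2 : ℤ) ^ (AA a + 1 + u + 1) * x = 2 ^ (AA a + 1 + u) * (2 * x) by ring]
  split_ifs
  · rw [pow_succ, mul_comm]
  · rw [mul_zero]

theorem tm_odd (n : ℕ) (x : ℤ) (h : (3 : ℤ) ∣ 2 * x - 1) (a : Fin n → ℕ) :
    2⁻¹ * tm n ((2 * x - 1) / 3) a ≤ tm (n + 1) x (Fin.cons 0 a) := by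
  obtain ⟨y, hy⟩ := h
  rw [hy, Int.mul_ediv_cancel_left _ (by norm_num)]
  unfold tm
  rw [AA_cons, GZ_cons, add_zero]
  by_cases h1 : (3 : ℤ) ^ n ∣ 2 ^ AA a * y - GZ a
  · have h2 : (3 : ℤ) ^ (n + 1) ∣ 2 ^ (AA a + 1) * x - (2 ^ AA a + 3 * GZ a) := by
      rw [show (2 : ℤ) ^ (AA a + 1) * x - (2 ^ AA a + 3 * GZ a) =
        2 ^ AA a * (2 * x - 1) - 3 * GZ a by ring, hy,
        show (2 : ℤ) ^ AA a * (3 * y) - 3 * GZ a = (2 ^ AA a * y - GZ a) * 3 by ring, pow_succ]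
      exact mul_dvd_mul_right h1 3
    rw [if_pos h1, if_pos h2, pow_succ, mul_comm]
  · rw [if_neg h1, mul_zero]
    exact bot_le

theorem QQ_rec (n : ℕ) (x : ℤ) :
    (if (3 : ℤ) ∣ 2 * x - 1 then 2⁻¹ * QQ n ((2 * x - 1) / 3) else 0) + 2⁻¹ * QQ (n + 1) (2 * x) ≤
      QQ (n + 1) x := by
  rw [QQ_succ n x, tsum_eq_zero_add' ENNReal.summable, QQ_succ n (2 * x)]
  refine add_le_add ?_ (le_of_eq ?_)
  · split_ifs with h
    · rw [QQ, ← ENNReal.tsum_mul_left]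
      exact ENNReal.tsum_le_tsum fun a => tm_odd n x h a
    · exact bot_le
  · simp only [tm_shift, ENNReal.tsum_mul_left]

theorem VV_zero_le (D : ℕ) : ∀ x : ℤ, VV D 0 x ≤ 2 := by
  induction D with
  | zero => intro x; simp [VV]
  | succ D ih =>
    intro x
    have h1 := ih (2 * x)
    have h2 : ∀ d y, Tr d (fun k _ _ => lev 0 (1 + k)) y = 0 := by
      intro d y
      rw [Tr_eq_fib]
      refine sum_eq_zero fun m _ => ?_
      rw [lev, if_neg (by omega), mul_zero]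
    rw [VV_succ]
    simp only [h2, sum_const_zero, mul_zero, ite_self, add_zero]
    rw [lev, if_pos rfl]
    linarith

theorem half_mul (v : ℝ) : ENNReal.ofReal (1 / 2 * v) = 2⁻¹ * ENNReal.ofReal v := by
  rw [ENNReal.ofReal_mul (by norm_num), one_div, ENNReal.ofReal_inv_of_pos (by norm_num),
    ENNReal.ofReal_ofNat]

theorem VV_le (D : ℕ) : ∀ (n : ℕ) (x : ℤ), ENNReal.ofReal (VV D n x / (2 * 3 ^ n)) ≤ QQ n x := by
  induction D with
  | zero => intro n x; simp [VV]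
  | succ D ih =>
    intro n x
    cases n with
    | zero =>
      rw [QQ_zero, ENNReal.ofReal_le_one]
      have := VV_zero_le (D + 1) x
      rw [pow_zero]
      linarith
    | succ n =>
      refine le_trans ?_ (QQ_rec n x)
      have h2 : ∀ k, lev (n + 1) (1 + k) = lev n k := by
        intro k
        unfold lev
        by_cases h : k = n
        · rw [if_pos h, if_pos (by omega)]
        · rw [if_neg h, if_neg (by omega)]
      have h3 : lev (n + 1) 0 = 0 := by rw [lev, if_neg (by omega)]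
      rw [VV_succ, h3]
      simp only [h2]
      by_cases h : (3 : ℤ) ∣ 2 * x - 1
      · rw [if_pos h, if_pos h]
        have e : (0 + (VV D (n + 1) (2 * x) +
            3 * ∑ d ∈ range D, Tr d (fun k _ _ => lev n k) ((2 * x - 1) / 3)) / 2) /
              (2 * 3 ^ (n + 1)) = 1 / 2 * (VV D n ((2 * x - 1) / 3) / (2 * 3 ^ n)) +
                1 / 2 * (VV D (n + 1) (2 * x) / (2 * 3 ^ (n + 1))) := by
          rw [show ∑ d ∈ range D, Tr d (fun k _ _ => lev n k) ((2 * x - 1) / 3) =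
            VV D n ((2 * x - 1) / 3) from rfl]
          field_simp
          ring
        rw [e]
        refine ENNReal.ofReal_add_le.trans ?_
        rw [half_mul, half_mul]
        exact add_le_add (mul_le_mul_right (ih _ _) _) (mul_le_mul_right (ih _ _) _)
      · rw [if_neg h, if_neg h, zero_add, zero_add, add_zero,
          show VV D (n + 1) (2 * x) / 2 / (2 * 3 ^ (n + 1)) =
            1 / 2 * (VV D (n + 1) (2 * x) / (2 * 3 ^ (n + 1))) by ring, half_mul]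
        exact mul_le_mul_right (ih _ _) _

theorem main : ∃ c : ℝ, 0 < c ∧ ∀ (n : ℕ) (x : ℤ), ¬ (3 : ℤ) ∣ x →
    ENNReal.ofReal (c / 3 ^ n) ≤ QQ n x := by
  obtain ⟨c, hc, h⟩ := lower_all
  refine ⟨c / 2, by positivity, fun n x hx => ?_⟩
  obtain ⟨D, hD⟩ := h n x hx
  refine le_trans (ENNReal.ofReal_le_ofReal ?_) (VV_le D n x)
  rw [div_div]
  gcongr

end Pool.Agent.MP_158692_nt.S86
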